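import Pool.Agent.H143R3.MT.Stmts

set_option autoImplicit false

/-! Task R of the project on moving traps (helper143): reflection principle on the grid. -/

namespace H143R3MT.H610

open Pool.Agent.H143R3.MT MeasureTheory Filter
open scoped ENNReal NNReal

open Classical in
/-- `P(z + S > 0)` -/
noncomputable def U (p : ℤ → ℝ≥0∞) (z : ℤ) : ℝ≥0∞ := ∑' i : ℤ, if 0 < z + i then p i else 0

open Classical in
/-- `P(z + S < 0)` -/
noncomputable def V (p : ℤ → ℝ≥0∞) (z : ℤ) : ℝ≥0∞ := ∑' i : ℤ, if z + i < 0 then p i else 0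

theorem U_step (A1 : TaskA1) (s r : ℝ≥0) (z : ℤ) :
    U (sk (s + r)) z = ∑' j : ℤ, sk s j * U (sk r) (z + j) := by
  classical
  unfold U
  have h1 : ∀ i : ℤ, (if 0 < z + i then sk (s + r) i else 0) =
      ∑' j : ℤ, sk s j * (if 0 < z + i then sk r (i - j) else 0) := by
    intro i
    by_cases h : 0 < z + i
    · simp only [if_pos h]
      exact A1.2.2.2 s r i
    · simp only [if_neg h, mul_zero, tsum_zero]
  simp_rw [h1]
  rw [ENNReal.tsum_comm]
  refine tsum_congr fun j => ?_
  rw [ENNReal.tsum_mul_left]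
  congr 1
  rw [← (Equiv.addRight j).tsum_eq]
  refine tsum_congr fun i => ?_
  simp only [Equiv.coe_addRight, add_sub_cancel_right]
  congr 1
  apply propext
  constructor <;> intro h <;> linarith

theorem V_step (A1 : TaskA1) (s r : ℝ≥0) (z : ℤ) :
    V (sk (s + r)) z = ∑' j : ℤ, sk s j * V (sk r) (z + j) := by
  classical
  unfold V
  have h1 : ∀ i : ℤ, (if z + i < 0 then sk (s + r) i else 0) =
      ∑' j : ℤ, sk s j * (if z + i < 0 then sk r (i - j) else 0) := by
    intro i
    by_cases h : z + i < 0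
    · simp only [if_pos h]
      exact A1.2.2.2 s r i
    · simp only [if_neg h, mul_zero, tsum_zero]
  simp_rw [h1]
  rw [ENNReal.tsum_comm]
  refine tsum_congr fun j => ?_
  rw [ENNReal.tsum_mul_left]
  congr 1
  rw [← (Equiv.addRight j).tsum_eq]
  refine tsum_congr fun i => ?_
  simp only [Equiv.coe_addRight, add_sub_cancel_right]
  congr 1
  apply propext
  constructor <;> intro h <;> linarith

theorem V_le_one (A1 : TaskA1) (r : ℝ≥0) (z : ℤ) : V (sk r) z ≤ 1 := by
  classical
  rw [← A1.2.2.1 r]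
  unfold V
  refine ENNReal.tsum_le_tsum fun i => ?_
  split_ifs
  · exact le_rfl
  · exact zero_le

theorem V_eq (A1 : TaskA1) (r : ℝ≥0) (z : ℤ) :
    V (sk r) z = ∑' i : ℤ, if z < i then sk r i else 0 := by
  classical
  unfold V
  rw [← (Equiv.neg ℤ).tsum_eq]
  refine tsum_congr fun i => ?_
  simp only [Equiv.neg_apply]
  rw [A1.2.1]
  congr 1
  apply propext
  constructor <;> intro h <;> linarith

theorem V_le_U (A1 : TaskA1) (r : ℝ≥0) (z : ℤ) (hz : 0 ≤ z) : V (sk r) z ≤ U (sk r) z := by
  classical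
  rw [V_eq A1]
  unfold U
  refine ENNReal.tsum_le_tsum fun i => ?_
  by_cases h : z < i
  · rw [if_pos h, if_pos (by linarith)]
  · rw [if_neg h]
    exact zero_le

theorem sub_le (A1 : TaskA1) (r : ℝ≥0) (z : ℤ) (hz : 0 < z) (B : ℝ≥0∞) (hB : ∀ i, sk r i ≤ B) :
    U (sk r) z - V (sk r) z ≤ 2 * (z.toNat : ℝ≥0∞) * B := by
  classical
  rw [tsub_le_iff_right, V_eq A1]
  have h1 : U (sk r) z = (∑' i : ℤ, if i ∈ Finset.Ioc (-z) z then sk r i else 0) +
      ∑' i : ℤ, if z < i then sk r i else 0 := by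
    rw [← ENNReal.tsum_add]
    unfold U
    refine tsum_congr fun i => ?_
    simp only [Finset.mem_Ioc]
    by_cases h1 : z < i
    · have a1 : 0 < z + i := by omega
      have a2 : ¬ (-z < i ∧ i ≤ z) := by omega
      rw [if_pos a1, if_neg a2, if_pos h1, zero_add]
    · by_cases h2 : -z < i
      · have a1 : 0 < z + i := by omega
        have a2 : (-z < i ∧ i ≤ z) := by omega
        rw [if_pos a1, if_pos a2, if_neg h1, add_zero]
      · have a1 : ¬ 0 < z + i := by omega
        have a2 : ¬ (-z < i ∧ i ≤ z) := by omega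
        rw [if_neg a1, if_neg a2, if_neg h1, add_zero]
  rw [h1]
  gcongr
  rw [tsum_eq_sum (s := Finset.Ioc (-z) z) (fun i hi => if_neg hi)]
  calc ∑ i ∈ Finset.Ioc (-z) z, (if i ∈ Finset.Ioc (-z) z then sk r i else 0) ≤
        ∑ i ∈ Finset.Ioc (-z) z, B := by
          refine Finset.sum_le_sum fun i hi => ?_
          rw [if_pos hi]
          exact hB i
    _ = 2 * (z.toNat : ℝ≥0∞) * B := by
          rw [Finset.sum_const, Int.card_Ioc, nsmul_eq_mul]
          congr 1
          have : (z - -z).toNat = 2 * z.toNat := by omega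
          rw [this]
          push_cast
          ring

theorem main (A1 : TaskA1) (A2 : TaskA2) (s : ℝ≥0) (k : ℕ) : ∀ y : ℤ,
    phi (sk s) k y ≤ (U (sk (k * s)) y - V (sk (k * s)) y) + (k : ℝ≥0∞) * ((s ^ 2 : ℝ≥0) : ℝ≥0∞) := by
  classical
  induction k with
  | zero =>
    intro y
    simp only [phi, Nat.cast_zero, zero_mul, add_zero]
    split_ifs with hy
    · have hV : V (sk 0) y = 0 := by
        rw [V_eq A1]
        refine le_antisymm ?_ zero_le
        calc (∑' i : ℤ, if y < i then sk 0 i else 0) ≤ ∑' i : ℤ, (if i ≠ 0 then sk 0 i else 0) := by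
              refine ENNReal.tsum_le_tsum fun i => ?_
              by_cases h : y < i
              · rw [if_pos h, if_pos (by omega)]
              · rw [if_neg h]
                exact zero_le
          _ ≤ 0 := by
              have := A2.1 0
              simpa using this
      rw [hV, tsub_zero]
      have h0 : (1 : ℝ≥0∞) ≤ sk 0 0 := by
        have := A2.2.2 0
        simpa using this
      refine h0.trans ?_
      unfold U
      refine le_trans ?_ (ENNReal.le_tsum 0)
      rw [if_pos (by simpa using hy)]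
    · exact zero_le
  | succ k ih =>
    intro y
    simp only [phi]
    split_ifs with hy
    · have hks : (((k + 1 : ℕ) : ℝ≥0) * s) = s + k * s := by
        push_cast
        ring
      rw [hks]
      set Uk := U (sk (k * s)) with hUk
      set Vk := V (sk (k * s)) with hVk
      have hsum : ∑' j : ℤ, sk s j = 1 := A1.2.2.1 s
      have hstep : ∑' j : ℤ, sk s j * (Uk (y + j) - Vk (y + j)) + V (sk (s + k * s)) y ≤
          U (sk (s + k * s)) y + ((s ^ 2 : ℝ≥0) : ℝ≥0∞) := by
        rw [V_step A1, U_step A1, ← ENNReal.tsum_add]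
        refine le_trans ?_ (add_le_add le_rfl (A2.2.1 s))
        rw [← ENNReal.tsum_add]
        refine ENNReal.tsum_le_tsum fun j => ?_
        rw [← mul_add]
        by_cases hj : 0 ≤ y + j
        · have h1 := V_le_U A1 (k * s) (y + j) hj
          rw [tsub_add_cancel_of_le h1]
          exact le_self_add
        · rw [if_pos (by rw [abs_of_neg (by omega)]; omega)]
          have hv : Vk (y + j) ≤ 1 := V_le_one A1 _ _
          have : sk s j * (Uk (y + j) - Vk (y + j) + Vk (y + j)) ≤ sk s j * (Uk (y + j) + 1) := by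
            gcongr
            exact tsub_le_self
          refine this.trans ?_
          rw [mul_add, mul_one]
      have hVfin : V (sk (s + k * s)) y ≠ ∞ :=
        ne_top_of_le_ne_top ENNReal.one_ne_top (V_le_one A1 _ _)
      have h2 : ∑' j : ℤ, sk s j * (Uk (y + j) - Vk (y + j)) ≤
          (U (sk (s + k * s)) y - V (sk (s + k * s)) y) + ((s ^ 2 : ℝ≥0) : ℝ≥0∞) := by
        have h3 := ENNReal.le_sub_of_add_le_right hVfin hstep
        refine h3.trans ?_
        rw [tsub_le_iff_right]
        calc U (sk (s + k * s)) y + ((s ^ 2 : ℝ≥0) : ℝ≥0∞) ≤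
              (U (sk (s + k * s)) y - V (sk (s + k * s)) y + V (sk (s + k * s)) y) +
                ((s ^ 2 : ℝ≥0) : ℝ≥0∞) := by
                gcongr
                exact le_tsub_add
          _ = _ := by ring
      calc conv (sk s) (phi (sk s) k) y = ∑' j : ℤ, sk s j * phi (sk s) k (y + j) := rfl
        _ ≤ ∑' j : ℤ, sk s j * ((Uk (y + j) - Vk (y + j)) +
              (k : ℝ≥0∞) * ((s ^ 2 : ℝ≥0) : ℝ≥0∞)) := by
            refine ENNReal.tsum_le_tsum fun j => ?_
            gcongr
            exact ih (y + j)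
        _ = ∑' j : ℤ, sk s j * (Uk (y + j) - Vk (y + j)) +
              (k : ℝ≥0∞) * ((s ^ 2 : ℝ≥0) : ℝ≥0∞) := by
            simp_rw [mul_add]
            rw [ENNReal.tsum_add, ENNReal.tsum_mul_right, hsum, one_mul]
        _ ≤ (U (sk (s + k * s)) y - V (sk (s + k * s)) y) + ((s ^ 2 : ℝ≥0) : ℝ≥0∞) +
              (k : ℝ≥0∞) * ((s ^ 2 : ℝ≥0) : ℝ≥0∞) := by
            gcongr
        _ = _ := by
            push_cast
            ring
    · exact zero_le

theorem taskR : TaskR := by
  intro A1 A2 A3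
  obtain ⟨C, hC⟩ := A3
  refine ⟨2 * C, ?_⟩
  intro s hs k y hk hy
  have hk0 : (0 : ℝ≥0) < k := by exact_mod_cast (by omega : 0 < k)
  have hks : (0 : ℝ≥0) < k * s := mul_pos hk0 hs
  refine (main A1 A2 s k y).trans ?_
  have hB : ∀ i, sk (k * s) i ≤ ENNReal.ofReal (C / √((k * s : ℝ≥0) : ℝ)) := fun i => hC _ i hks
  have h1 := sub_le A1 (k * s) y hy _ hB
  have h2 : ENNReal.ofReal (((2 * C : ℝ≥0) : ℝ) * y / √(k * s) + k * s ^ 2) =
      2 * (y.toNat : ℝ≥0∞) * ENNReal.ofReal (C / √((k * s : ℝ≥0) : ℝ)) +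
        (k : ℝ≥0∞) * ((s ^ 2 : ℝ≥0) : ℝ≥0∞) := by
    have hy' : (0 : ℝ) ≤ y := by exact_mod_cast hy.le
    rw [ENNReal.ofReal_add (by positivity) (by positivity)]
    congr 1
    · have e1 : (y.toNat : ℝ≥0∞) = ENNReal.ofReal (y : ℝ) := by
        have : (y : ℝ) = ((y.toNat : ℕ) : ℝ) := by
          have h := Int.toNat_of_nonneg hy.le
          exact_mod_cast h.symm
        rw [this, ENNReal.ofReal_natCast]
      have e2 : (2 : ℝ≥0∞) = ENNReal.ofReal 2 := by norm_num
      rw [e1, e2, ← ENNReal.ofReal_mul (by norm_num), ← ENNReal.ofReal_mul (by positivity)]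
      congr 1
      push_cast
      ring
    · rw [ENNReal.ofReal_mul (by positivity), ENNReal.ofReal_natCast]
      congr 1
      rw [show ((s : ℝ) ^ 2) = ((s ^ 2 : ℝ≥0) : ℝ) by push_cast; rfl, ENNReal.ofReal_coe_nnreal]
  rw [h2]
  gcongr

end H143R3MT.H610
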